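import Pool.Agent.H22.AN.TB3
import Pool.Agent.H80.AN.TargetsA

/-!
# Row KPL of allh_modules (MP_2697e3_an): both inequalities, for all planes and radii
-/

set_option autoImplicit false

namespace Pool.Agent.H12.AN

open MeasureTheory Metric Set Filter Topology Pool.Agent.H87.SN Pool.Agent.H87.SH
  Pool.Agent.H87.AX Pool.Agent.H22.AN
open scoped ContDiff RealInnerProductSpace ENNReal

theorem kpl_norm {d : ℕ} (y : V d) : ‖y‖ ^ 2 = rho y ^ 2 + ‖zp y‖ ^ 2 := by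
  unfold rho zp
  rw [Real.sq_sqrt (by positivity), EuclideanSpace.norm_sq_eq, EuclideanSpace.norm_sq_eq,
    Fin.sum_univ_succ, Fin.sum_univ_succ]
  simp only [Real.norm_eq_abs, sq_abs]
  have : (Fin.succ 0 : Fin (d + 2)) = 1 := rfl
  rw [this]
  ring

theorem kpl_meas {d : ℕ} (μ : Measure (V d)) [SFinite μ] (f : V d → ℝ≥0∞) (hf : Measurable f)
    (r : ℝ) : Measurable (fun x : V d => ∫⁻ y in ball x r, f y ∂μ) := by
  have h1 : ∀ x : V d, ∫⁻ y in ball x r, f y ∂μ =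
      ∫⁻ y, ({p : V d × V d | dist p.2 p.1 < r}.indicator (fun p => f p.2)) (x, y) ∂μ := by
    intro x
    rw [← lintegral_indicator measurableSet_ball]
    apply lintegral_congr
    intro y
    by_cases hy : dist y x < r
    · rw [indicator_of_mem (show y ∈ ball x r from hy),
        indicator_of_mem (show (x, y) ∈ {p : V d × V d | dist p.2 p.1 < r} from hy)]
    · rw [indicator_of_notMem (show y ∉ ball x r from hy),
        indicator_of_notMem (show (x, y) ∉ {p : V d × V d | dist p.2 p.1 < r} from hy)]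
  simp_rw [h1]
  apply Measurable.lintegral_prod_right'
  apply Measurable.indicator (hf.comp measurable_snd)
  exact measurableSet_lt (measurable_snd.dist measurable_fst) measurable_const

theorem kpl_abs (a b c : ℝ) (ha : 0 ≤ a) (hb : 0 ≤ b) (hc : 0 < c) :
    a < b ↔ c ^ 2 * a ^ 2 < (b * c) ^ 2 := by
  rw [mul_pow, mul_comm (b ^ 2), mul_lt_mul_iff_right₀ (by positivity)]
  exact (pow_lt_pow_iff_left₀ ha hb two_ne_zero).symm

theorem pf_KPL (hKNS : T_KNS) (hISO : T_ISO) (hZMU : T_ZMU) (hZOM : T_ZOM) (hMUF : T_MUF) :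
    T_KPL := by
  intro d L hd hL
  obtain ⟨δ, C, hδ, hC, hK⟩ := hKNS d L hd hL
  refine ⟨δ, C, hδ, hC, ?_⟩
  intro m Λ ε U u G hSM q a ν₁ ν₂ R hq hON hR hR4 ha hyp
  obtain ⟨g, -, -, hdl'⟩ := hISO d ν₁ ν₂ hON
  have hdl : ∀ y : V d, dl a ν₁ ν₂ (zm a R g y) = R ^ 2 * rho y ^ 2 := hdl' a R
  have hsub : ball a (2 * R) ⊆ ball (0 : V d) 2 := by
    apply ball_subset_ball'
    rw [dist_zero_right]
    linarith
  obtain ⟨hZ1, hZ2⟩ := hZOM d m L Λ ε U u G hSM a R g hR hsub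
  obtain ⟨-, hM1, hM2, hM3, -, -⟩ := hZMU d m G a R g hSM.gd.memG hR hsub
  have hfin : IsFiniteMeasure (mu G) := ⟨lt_top_iff_ne_top.2 (hMUF d m G hSM.gd.memG).1⟩
  have hzm0 : zm a R g 0 = a := by
    unfold zm
    simp
  have hball : ∀ s : ℝ, zm a R g '' ball 0 s = ball a (R * s) := by
    intro s
    rw [hM3, hzm0]
  have hh : 0 < hhq d q := by unfold hhq; positivity
  have hs : 0 < shq q := by unfold shq; positivity
  have hh1 : hhq d q ≤ 1 / 64 := by
    unfold hhq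
    calc ((1 : ℝ) / 2) ^ ((8 * d + 6) * q) ≤ (1 / 2) ^ 6 := by
          apply pow_le_pow_of_le_one (by norm_num) (by norm_num)
          nlinarith
      _ = 1 / 64 := by norm_num
  set h := hhq d q with hhdef
  set s := shq q with hsdef
  have hrho0 : ∀ x : V d, 0 ≤ rho x := fun x => Real.sqrt_nonneg _
  -- the scaled inequality
  have hmain := hK m Λ ε _ _ _ hZ1 q hq (by
    intro x hx hrx
    have hy : zm a R g x ∈ ball a (R / 2) := by
      have := mem_image_of_mem (zm a R g) hx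
      rw [hball] at this
      rwa [show R * (1 / 2) = R / 2 by ring] at this
    have h1 : (h * R / 2) ^ 2 < dl a ν₁ ν₂ (zm a R g x) := by
      rw [hdl]
      have h2 : (h * R / 2) ^ 2 = R ^ 2 * (h / 2) ^ 2 := by ring
      rw [h2]
      apply mul_lt_mul_of_pos_left _ (by positivity)
      exact pow_lt_pow_left₀ hrx (by positivity) two_ne_zero
    obtain ⟨h2, h3⟩ := hyp _ hy h1
    have h4 : x ∈ ball (0 : V d) 2 ∩ zm a R g ⁻¹' U := by
      refine ⟨?_, h2⟩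
      exact ball_subset_ball (by norm_num) hx
    refine ⟨h4, ?_⟩
    rw [(hZ2 x h4).1]
    rw [hdl] at h3
    linarith)
  -- the integrals
  have hdm : Measurable (fun x : V d => dl a ν₁ ν₂ x) := by
    unfold dl
    fun_prop
  have hrm : Measurable (fun x : V d => rho x) := by
    unfold rho
    fun_prop
  have hzpm : Measurable (fun x : V d => ‖zp x‖) := by
    have : Continuous (fun x : V d => zp x) := by
      unfold zp
      fun_prop
    exact this.norm.measurable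
  have hint : ∀ S : Set (V d), MeasurableSet S → S ⊆ ball 0 2 →
      ∫⁻ x in S, ENNReal.ofReal (rho x ^ 2) ∂(mu (zG a R g G)) =
        ENNReal.ofReal ((R ^ (d + 2))⁻¹) *
          ∫⁻ x in zm a R g '' S, ENNReal.ofReal (dl a ν₁ ν₂ x) ∂(mu G) := by
    intro S hS hS2
    have h1 := hM1 (fun x => ENNReal.ofReal ((R ^ 2)⁻¹ * dl a ν₁ ν₂ x)) S (by fun_prop) hS hS2
    have h2 : ∀ x : V d, ENNReal.ofReal ((R ^ 2)⁻¹ * dl a ν₁ ν₂ (zm a R g x)) =
        ENNReal.ofReal (rho x ^ 2) := by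
      intro x
      rw [hdl]
      congr 1
      field_simp
    simp_rw [h2] at h1
    rw [h1]
    have h3 : ∀ x : V d, ENNReal.ofReal ((R ^ 2)⁻¹ * dl a ν₁ ν₂ x) =
        ENNReal.ofReal ((R ^ 2)⁻¹) * ENNReal.ofReal (dl a ν₁ ν₂ x) := by
      intro x
      rw [ENNReal.ofReal_mul (by positivity)]
    simp_rw [h3]
    rw [lintegral_const_mul _ (by fun_prop), ← mul_assoc]
    congr 1
    rw [← ENNReal.ofReal_mul (by positivity)]
    congr 1
    rw [pow_add, mul_inv]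
  have hset1 : MeasurableSet {x : V d | x ∈ ball (0 : V d) (1 / 16) ∧ rho x < 10 * s} :=
    measurableSet_ball.inter (measurableSet_lt hrm measurable_const)
  have hset2 : MeasurableSet {y : V d | rho y < h / 8 ∧ ‖zp y‖ < 5 / 16} :=
    (measurableSet_lt hrm measurable_const).inter (measurableSet_lt hzpm measurable_const)
  have hs2b : ∀ y : V d, rho y < h / 8 → ‖zp y‖ < 5 / 16 → y ∈ ball (0 : V d) (1 / 2) := by
    intro y h1 h2
    rw [mem_ball_zero_iff]
    have h3 := kpl_norm y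
    have h4 := hrho0 y
    have h5 := norm_nonneg (zp y)
    have h6 := norm_nonneg y
    nlinarith
  have hi1 := hint _ hset1 (fun x hx => ball_subset_ball (by norm_num) hx.1)
  have hi4 := hint (ball 0 (1 / 2)) measurableSet_ball (ball_subset_ball (by norm_num))
  have himg1 : zm a R g '' {x : V d | x ∈ ball (0 : V d) (1 / 16) ∧ rho x < 10 * s} =
      {x : V d | x ∈ ball a (R / 16) ∧ dl a ν₁ ν₂ x < (10 * (s * R)) ^ 2} := by
    have hb8 := hball (1 / 16)
    rw [show R * (1 / 16) = R / 16 by ring] at hb8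
    have hiff : ∀ x : V d, rho x < 10 * s ↔ dl a ν₁ ν₂ (zm a R g x) < (10 * (s * R)) ^ 2 := by
      intro x
      rw [hdl, kpl_abs (rho x) (10 * s) R (hrho0 x) (by positivity) hR, mul_assoc]
    ext y
    constructor
    · rintro ⟨x, ⟨hx1, hx2⟩, rfl⟩
      refine ⟨?_, (hiff x).1 hx2⟩
      rw [← hb8]
      exact mem_image_of_mem _ hx1
    · rintro ⟨hy1, hy2⟩
      rw [← hb8] at hy1
      obtain ⟨x, hx, rfl⟩ := hy1
      exact ⟨x, ⟨hx, (hiff x).2 hy2⟩, rfl⟩
  have himg2 : zm a R g '' {y : V d | rho y < h / 8 ∧ ‖zp y‖ < 5 / 16} ⊆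
      {y : V d | y ∈ ball a (R / 2) ∧ dl a ν₁ ν₂ y < (h * R / 8) ^ 2} := by
    rintro _ ⟨x, ⟨hx1, hx2⟩, rfl⟩
    have hb8 := hball (1 / 2)
    rw [show R * (1 / 2) = R / 2 by ring] at hb8
    refine ⟨?_, ?_⟩
    · rw [← hb8]
      exact mem_image_of_mem _ (hs2b x hx1 hx2)
    · rw [hdl]
      have := (kpl_abs (rho x) (h / 8) R (hrho0 x) (by positivity) hR).1 hx1
      rwa [show h / 8 * R = h * R / 8 by ring] at this
  rw [hball, show R * (1 / 2) = R / 2 by ring] at hi4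
  rw [himg1] at hi1
  -- the outer integral
  set F : V d → ℝ≥0∞ := fun x => (ENNReal.ofReal (((h * R) ^ (d + 2))⁻¹) *
    ∫⁻ y in ball x (6 * (h * R)), ENNReal.ofReal (dl a ν₁ ν₂ y) ∂(mu G)) ^ (1 / 2 : ℝ) with hF
  have hFm : Measurable F := by
    have h1 := kpl_meas (mu G) (fun y => ENNReal.ofReal (dl a ν₁ ν₂ y)) (by fun_prop)
      (6 * (h * R))
    exact (h1.const_mul _).pow_const _
  have hout : ∫⁻ y in {y : V d | rho y < h / 8 ∧ ‖zp y‖ < 5 / 16},
      (ENNReal.ofReal ((h ^ (d + 2))⁻¹) *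
        ∫⁻ x in ball y (6 * h), ENNReal.ofReal (rho x ^ 2) ∂(mu (zG a R g G))) ^ (1 / 2 : ℝ) ≤
      ENNReal.ofReal ((R ^ (d + 2))⁻¹) *
        ∫⁻ y in {y : V d | y ∈ ball a (R / 2) ∧ dl a ν₁ ν₂ y < (h * R / 8) ^ 2}, F y := by
    have h1 : ∫⁻ y in {y : V d | rho y < h / 8 ∧ ‖zp y‖ < 5 / 16},
        (ENNReal.ofReal ((h ^ (d + 2))⁻¹) *
          ∫⁻ x in ball y (6 * h), ENNReal.ofReal (rho x ^ 2) ∂(mu (zG a R g G))) ^ (1 / 2 : ℝ) =
        ∫⁻ y in {y : V d | rho y < h / 8 ∧ ‖zp y‖ < 5 / 16}, F (zm a R g y) := by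
      apply setLIntegral_congr_fun hset2
      intro y hy
      have hy1 := hs2b y hy.1 hy.2
      have hyb : ball y (6 * h) ⊆ ball (0 : V d) 2 := by
        apply ball_subset_ball'
        rw [mem_ball] at hy1
        linarith
      have h2 := hint (ball y (6 * h)) measurableSet_ball hyb
      rw [hM3] at h2
      simp only [hF]
      rw [h2, ← mul_assoc, ← ENNReal.ofReal_mul (by positivity), mul_pow,
        show R * (6 * h) = 6 * (h * R) by ring, mul_inv]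
    rw [h1, hM2 F _ hFm hset2]
    exact mul_le_mul' le_rfl (lintegral_mono_set himg2)
  rw [hi1, hi4] at hmain
  set I1 := ∫⁻ x in {x : V d | x ∈ ball a (R / 16) ∧ dl a ν₁ ν₂ x < (10 * (s * R)) ^ 2},
    ENNReal.ofReal (dl a ν₁ ν₂ x) ∂(mu G) with hI1
  set I4 := ∫⁻ x in ball a (R / 2), ENNReal.ofReal (dl a ν₁ ν₂ x) ∂(mu G) with hI4
  set I3 := ∫⁻ y in {y : V d | y ∈ ball a (R / 2) ∧ dl a ν₁ ν₂ y < (h * R / 8) ^ 2}, F y with hI3
  set X := ∫⁻ y in {y : V d | rho y < h / 8 ∧ ‖zp y‖ < 5 / 16},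
      (ENNReal.ofReal ((h ^ (d + 2))⁻¹) *
        ∫⁻ x in ball y (6 * h), ENNReal.ofReal (rho x ^ 2) ∂(mu (zG a R g G))) ^ (1 / 2 : ℝ)
    with hX
  set ρ := ENNReal.ofReal ((R ^ d)⁻¹) with hρ
  have hρ1 : ENNReal.ofReal (R ^ d) * ρ = 1 := by
    rw [hρ, ← ENNReal.ofReal_mul (by positivity), mul_inv_cancel₀ (by positivity)]
    exact ENNReal.ofReal_one
  have e1 : ENNReal.ofReal ((s ^ 2)⁻¹) * (ENNReal.ofReal ((R ^ (d + 2))⁻¹) * I1) =
      ρ * (ENNReal.ofReal (((s * R) ^ 2)⁻¹) * I1) := by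
    rw [← mul_assoc, ← mul_assoc, hρ, ← ENNReal.ofReal_mul (by positivity),
      ← ENNReal.ofReal_mul (by positivity)]
    congr 2
    field_simp
    ring
  have e2 : ENNReal.ofReal ((R ^ (d + 2))⁻¹) * I4 = ρ * (ENNReal.ofReal ((R ^ 2)⁻¹) * I4) := by
    rw [← mul_assoc, hρ, ← ENNReal.ofReal_mul (by positivity)]
    congr 2
    rw [pow_add, mul_inv]
  have e3 : ENNReal.ofReal ((h ^ 2)⁻¹) * X ≤ ρ * (ENNReal.ofReal (((h * R) ^ 2)⁻¹) * I3) := by
    refine (mul_le_mul' le_rfl hout).trans (le_of_eq ?_)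
    rw [← mul_assoc, ← mul_assoc, hρ, ← ENNReal.ofReal_mul (by positivity),
      ← ENNReal.ofReal_mul (by positivity)]
    congr 2
    field_simp
    ring
  have h5 : ρ * (ENNReal.ofReal (((s * R) ^ 2)⁻¹) * I1) ≤
      ENNReal.ofReal (C * (1 / 4) ^ q) * ((ρ * (ENNReal.ofReal (((h * R) ^ 2)⁻¹) * I3)) ^ 2 +
        ρ * (ENNReal.ofReal ((R ^ 2)⁻¹) * I4)) := by
    rw [e1, e2] at hmain
    refine hmain.trans (mul_le_mul' le_rfl (add_le_add ?_ le_rfl))
    exact pow_le_pow_left' e3 2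
  have h6 := mul_le_mul' (le_refl (ENNReal.ofReal (R ^ d))) h5
  have h7 : ENNReal.ofReal (R ^ d) * (ρ * (ENNReal.ofReal (((s * R) ^ 2)⁻¹) * I1)) =
      ENNReal.ofReal (((s * R) ^ 2)⁻¹) * I1 := by
    rw [← mul_assoc, hρ1, one_mul]
  have h8 : ENNReal.ofReal (R ^ d) * (ENNReal.ofReal (C * (1 / 4) ^ q) *
      ((ρ * (ENNReal.ofReal (((h * R) ^ 2)⁻¹) * I3)) ^ 2 +
        ρ * (ENNReal.ofReal ((R ^ 2)⁻¹) * I4))) =
      ENNReal.ofReal (C * (1 / 4) ^ q) * ((ENNReal.ofReal (R ^ d) * ρ) * ρ *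
        (ENNReal.ofReal (((h * R) ^ 2)⁻¹) * I3) ^ 2 +
        (ENNReal.ofReal (R ^ d) * ρ) * (ENNReal.ofReal ((R ^ 2)⁻¹) * I4)) := by
    ring
  rw [h7, h8, hρ1, one_mul, one_mul] at h6
  exact h6

end Pool.Agent.H12.AN
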